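import Mathlib

/-!
# Distance domination critical graphs from far relations

`k`-domination numbers, critical graphs, minimum `k`-degrees; a product construction of critical
graphs, and a lower bound for the order.
-/

set_option autoImplicit false

namespace Pool.Agent.Y376.KD

open SimpleGraph

/-- `d_G(u,v) ≤ k`: there is a walk from `u` to `v` of length at most `k`. -/
def Within {V : Type} (G : SimpleGraph V) (k : ℕ) (u v : V) : Prop :=
  ∃ w : G.Walk u v, w.length ≤ k

/-- `D` is a `k`-dominating set of `G`. -/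
def IsKDominating {V : Type} (G : SimpleGraph V) (k : ℕ) (D : Finset V) : Prop :=
  ∀ v : V, ∃ d ∈ D, Within G k d v

/-- The `k`-domination number `γ_k(G)` (for a finite graph `G`). -/
noncomputable def domNumber {V : Type} (G : SimpleGraph V) (k : ℕ) : ℕ :=
  sInf {c | ∃ D : Finset V, IsKDominating G k D ∧ D.card = c}

/-- The set `N_k(v)` of the vertices other than `v` at distance at most `k` from `v`. -/
def kNbhd {V : Type} (G : SimpleGraph V) (k : ℕ) (v : V) : Set V :=
  {u | u ≠ v ∧ Within G k v u}

/-- The minimum `k`-degree `δ_k(G)`. -/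
noncomputable def minKDegree {V : Type} (G : SimpleGraph V) (k : ℕ) : ℕ :=
  sInf (Set.range fun v : V => (kNbhd G k v).ncard)

/-- `G` is `γ_k`-critical: deleting any vertex lowers the `k`-domination number. -/
def IsKCritical {V : Type} (G : SimpleGraph V) (k : ℕ) : Prop :=
  ∀ v : V, domNumber (G.induce {u | u ≠ v}) k < domNumber G k

/-! ### Walks in a set -/

/-- There is a walk of length at most `k` from `u` to `v` inside `S`. -/
def WIn {V : Type} (G : SimpleGraph V) (S : Set V) (k : ℕ) (u v : V) : Prop :=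
  ∃ w : G.Walk u v, w.length ≤ k ∧ ∀ z ∈ w.support, z ∈ S

section
variable {V : Type} {G : SimpleGraph V} {S : Set V}

theorem WIn.refl {u : V} (h : u ∈ S) : WIn G S 0 u u :=
  ⟨Walk.nil, le_rfl, fun z hz => by simp at hz; exact hz ▸ h⟩

theorem WIn.mono {k l : ℕ} {u v : V} (h : WIn G S k u v) (hkl : k ≤ l) : WIn G S l u v := by
  obtain ⟨w, h1, h2⟩ := h
  exact ⟨w, h1.trans hkl, h2⟩

theorem WIn.sub {T : Set V} {k : ℕ} {u v : V} (h : WIn G S k u v) (hST : S ⊆ T) :
    WIn G T k u v := by
  obtain ⟨w, h1, h2⟩ := h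
  exact ⟨w, h1, fun z hz => hST (h2 z hz)⟩

theorem WIn.adj {u v : V} (hu : u ∈ S) (hv : v ∈ S) (h : G.Adj u v) : WIn G S 1 u v :=
  ⟨Walk.cons h Walk.nil, by simp, fun z hz => by
    simp at hz
    rcases hz with rfl | rfl <;> assumption⟩

theorem WIn.trans {k l : ℕ} {u v x : V} (h1 : WIn G S k u v) (h2 : WIn G S l v x) :
    WIn G S (k + l) u x := by
  obtain ⟨w, a1, a2⟩ := h1
  obtain ⟨w', b1, b2⟩ := h2
  refine ⟨w.append w', by rw [Walk.length_append]; omega, fun z hz => ?_⟩
  rw [Walk.mem_support_append_iff] at hz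
  rcases hz with hz | hz
  · exact a2 z hz
  · exact b2 z hz

theorem WIn.within {k : ℕ} {u v : V} (h : WIn G S k u v) : Within G k u v := by
  obtain ⟨w, h1, _⟩ := h
  exact ⟨w, h1⟩

theorem WIn.induce {k : ℕ} {u v : V} (h : WIn G S k u v) (hu : u ∈ S) (hv : v ∈ S) :
    Within (G.induce S) k ⟨u, hu⟩ ⟨v, hv⟩ := by
  obtain ⟨w, h1, h2⟩ := h
  refine ⟨w.induce S h2, ?_⟩
  have : (w.induce S h2).length = w.length := by
    have := congrArg Walk.length (Walk.map_induce w h2)
    rwa [Walk.length_map] at this
  rw [this]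
  exact h1

theorem Within.symm {k : ℕ} {u v : V} (h : Within G k u v) : Within G k v u := by
  obtain ⟨w, h1⟩ := h
  exact ⟨w.reverse, by rwa [Walk.length_reverse]⟩

end

/-! ### The domination number -/

theorem dom_le {V : Type} {G : SimpleGraph V} {k c : ℕ} (D : Finset V) (h : IsKDominating G k D)
    (hc : D.card ≤ c) : domNumber G k ≤ c :=
  (Nat.sInf_le (⟨D, h, rfl⟩ : D.card ∈ {c | ∃ D : Finset V, IsKDominating G k D ∧ D.card = c})).trans hc

theorem dom_spec {V : Type} [Fintype V] (G : SimpleGraph V) (k : ℕ) :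
    ∃ D : Finset V, IsKDominating G k D ∧ D.card = domNumber G k := by
  have hne : {c | ∃ D : Finset V, IsKDominating G k D ∧ D.card = c}.Nonempty :=
    ⟨_, Finset.univ, fun v => ⟨v, Finset.mem_univ _, Walk.nil, by simp⟩, rfl⟩
  exact Nat.sInf_mem hne

theorem le_dom {V : Type} [Fintype V] {G : SimpleGraph V} {k c : ℕ}
    (h : ∀ D : Finset V, IsKDominating G k D → c ≤ D.card) : c ≤ domNumber G k := by
  obtain ⟨D, h1, h2⟩ := dom_spec G k
  exact h2 ▸ h D h1

/-! ### Far relations -/

/-- A symmetric irreflexive relation on `X` such that any `t` points have a common far point,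
every point is the only common far point of some `t` points, and two far points have a common
near point. -/
structure IsFar {X : Type} (F : X → X → Prop) (t : ℕ) : Prop where
  symm : ∀ x y, F x y → F y x
  irr : ∀ x, ¬ F x x
  cover : ∀ D : Finset X, D.card ≤ t → ∃ w, ∀ u ∈ D, F u w
  uniq : ∀ x, ∃ u : Fin t → X, (∀ j, F (u j) x) ∧ ∀ w, (∀ j, F (u j) w) → w = x
  diam : ∀ v w, F v w → ∃ z, z ≠ v ∧ z ≠ w ∧ ¬ F v z ∧ ¬ F w z

open Classical in
/-- The distance on `X`: `0` for equal points, `2` for far points, `1` otherwise. -/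
noncomputable def d1 {X : Type} (F : X → X → Prop) (v w : X) : ℕ :=
  if v = w then 0 else if F v w then 2 else 1

/-- The distance on the product. -/
noncomputable def dd {X : Type} (F : X → X → Prop) {m t : ℕ}
    (p q : X × (Fin m → Fin (t + 1))) : ℕ :=
  d1 F p.1 q.1 + hammingDist p.2 q.2

/-- Far pairs of the product. -/
def Far {X : Type} (F : X → X → Prop) {m t : ℕ} (p q : X × (Fin m → Fin (t + 1))) : Prop :=
  F p.1 q.1 ∧ ∀ i, p.2 i ≠ q.2 i

section
variable {X : Type} {F : X → X → Prop} {m t : ℕ}

theorem d1_self (v : X) : d1 F v v = 0 := by simp [d1]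

theorem d1_comm (hs : ∀ x y, F x y → F y x) (v w : X) : d1 F v w = d1 F w v := by
  unfold d1
  by_cases h : v = w
  · subst h; rfl
  · rw [if_neg h, if_neg (Ne.symm h)]
    by_cases h1 : F v w
    · rw [if_pos h1, if_pos (hs _ _ h1)]
    · rw [if_neg h1, if_neg (fun h2 => h1 (hs _ _ h2))]

theorem d1_le (v w : X) : d1 F v w ≤ 2 := by
  unfold d1
  split_ifs <;> omega

theorem d1_tri (u v w : X) : d1 F u w ≤ d1 F u v + d1 F v w := by
  by_cases h : u = v
  · subst h; rw [d1_self]; omega
  · by_cases h' : v = w
    · subst h'; rw [d1_self]; omega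
    · have h1 : 1 ≤ d1 F u v := by unfold d1; rw [if_neg h]; split_ifs <;> omega
      have h2 : 1 ≤ d1 F v w := by unfold d1; rw [if_neg h']; split_ifs <;> omega
      have := d1_le (F := F) u w
      omega

theorem d1_far (hi : ∀ x, ¬ F x x) {v w : X} (h : F v w) : d1 F v w = 2 := by
  unfold d1
  have e : v ≠ w := by
    intro e
    rw [e] at h
    exact hi w h
  rw [if_neg e, if_pos h]

theorem d1_near {v w : X} (h : ¬ F v w) : d1 F v w ≤ 1 := by
  unfold d1
  split_ifs <;> omega

theorem dd_tri (p q r : X × (Fin m → Fin (t + 1))) : dd F p r ≤ dd F p q + dd F q r := by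
  unfold dd
  have := d1_tri (F := F) p.1 q.1 r.1
  have := hammingDist_triangle p.2 q.2 r.2
  omega

/-- The product graph. -/
noncomputable def gr (F : X → X → Prop) (m t : ℕ) (hs : ∀ x y, F x y → F y x) :
    SimpleGraph (X × (Fin m → Fin (t + 1))) where
  Adj p q := dd F p q = 1
  symm := ⟨fun p q h => by
    unfold dd at h ⊢
    rw [d1_comm hs, hammingDist_comm]
    exact h⟩
  loopless := ⟨fun p h => by
    unfold dd at h
    rw [d1_self, hammingDist_self] at h
    omega⟩

variable (hs : ∀ x y, F x y → F y x)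

theorem dd_le_length {p q : X × (Fin m → Fin (t + 1))} (w : (gr F m t hs).Walk p q) :
    dd F p q ≤ w.length := by
  induction w with
  | nil => simp [dd, d1_self]
  | cons h w ih =>
    rename_i a b c
    have h1 : dd F a b = 1 := h
    have := dd_tri (F := F) a b c
    rw [Walk.length_cons]
    omega

theorem far_dd (hi : ∀ x, ¬ F x x) {p q : X × (Fin m → Fin (t + 1))} (h : Far F p q) :
    dd F p q = m + 2 := by
  unfold dd
  rw [d1_far hi h.1]
  have : hammingDist p.2 q.2 = m := by
    unfold hammingDist
    rw [Finset.filter_true_of_mem (fun i _ => h.2 i)]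
    simp
  omega

theorem near_dd {p q : X × (Fin m → Fin (t + 1))} (h : ¬ Far F p q) : dd F p q ≤ m + 1 := by
  unfold dd
  have h1 : hammingDist p.2 q.2 ≤ m := by
    have := hammingDist_le_card_fintype (x := p.2) (y := q.2)
    simpa using this
  by_cases h2 : F p.1 q.1
  · have h3 : ∃ i, p.2 i = q.2 i := by
      by_contra h3
      push Not at h3
      exact h ⟨h2, h3⟩
    obtain ⟨i, hi⟩ := h3
    have h4 : hammingDist p.2 q.2 < m := by
      unfold hammingDist
      calc (Finset.univ.filter fun i => p.2 i ≠ q.2 i).card < (Finset.univ : Finset (Fin m)).card := by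
            apply Finset.card_lt_card
            refine ⟨Finset.filter_subset _ _, fun hh => ?_⟩
            have := hh (Finset.mem_univ i)
            rw [Finset.mem_filter] at this
            exact this.2 hi
        _ = m := by simp
    have := d1_le (F := F) p.1 q.1
    omega
  · have := d1_near h2
    omega

/-- Moves in the cube. -/
theorem wcube (v : X) : ∀ (n : ℕ) (x y : Fin m → Fin (t + 1)), hammingDist x y = n →
    WIn (gr F m t hs) {z | z.1 = v} n (v, x) (v, y) := by
  intro n
  induction n with
  | zero =>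
    intro x y h
    rw [hammingDist_eq_zero] at h
    subst h
    exact WIn.refl rfl
  | succ n ih =>
    intro x y h
    have : ∃ i, x i ≠ y i := by
      by_contra hh
      push Not at hh
      have : x = y := funext hh
      rw [this, hammingDist_self] at h
      omega
    obtain ⟨i, hi⟩ := this
    have e1 : hammingDist x (Function.update x i (y i)) = 1 := by
      unfold hammingDist
      have : (Finset.univ.filter fun j => x j ≠ Function.update x i (y i) j) = {i} := by
        ext j
        simp only [Finset.mem_filter, Finset.mem_univ, true_and, Finset.mem_singleton]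
        by_cases hj : j = i
        · subst hj; simp [hi]
        · simp [Function.update_of_ne hj, hj]
      rw [this]; simp
    have e2 : hammingDist (Function.update x i (y i)) y = n := by
      have e3 : (Finset.univ.filter fun j => x j ≠ y j) =
          insert i (Finset.univ.filter fun j => Function.update x i (y i) j ≠ y j) := by
        ext j
        simp only [Finset.mem_filter, Finset.mem_univ, true_and, Finset.mem_insert]
        by_cases hj : j = i
        · subst hj; simp [hi]
        · simp [Function.update_of_ne hj, hj]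
      have e4 : i ∉ (Finset.univ.filter fun j => Function.update x i (y i) j ≠ y j) := by
        simp
      have e5 := Finset.card_insert_of_notMem e4
      rw [← e3] at e5
      unfold hammingDist at h ⊢
      omega
    have a := ih _ _ e2
    have b : WIn (gr F m t hs) {z | z.1 = v} 1 (v, x) (v, Function.update x i (y i)) := by
      refine WIn.adj rfl rfl ?_
      change dd F _ _ = 1
      unfold dd
      rw [d1_self, e1]
    exact (b.trans a).mono (by omega)

theorem adj_first {v w : X} {x : Fin m → Fin (t + 1)} (h : v ≠ w) (h' : ¬ F v w) :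
    (gr F m t hs).Adj (v, x) (w, x) := by
  change dd F _ _ = 1
  unfold dd
  simp [d1, h, h']

/-- The main construction of walks. -/
theorem wmain (hF : IsFar F t) (x p q : X × (Fin m → Fin (t + 1))) (hpx : Far F p x)
    (hqx : q ≠ x) (hpq : ¬ Far F p q) :
    WIn (gr F m t hs) {z | z ≠ x} (m + 1) p q := by
  have hpx1 : p.1 ≠ x.1 := fun e => hF.irr x.1 (e ▸ hpx.1)
  have h1 : WIn (gr F m t hs) {z | z ≠ x} (hammingDist p.2 q.2) p (p.1, q.2) :=
    (wcube hs p.1 _ p.2 q.2 rfl).sub (fun z (hz : z.1 = p.1) e => hpx1 (by rw [← hz, e]))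
  have h2 : WIn (gr F m t hs) {z | z ≠ x} (d1 F p.1 q.1) (p.1, q.2) q := by
    have m1 : ((p.1, q.2) : X × (Fin m → Fin (t + 1))) ∈
        {z : X × (Fin m → Fin (t + 1)) | z ≠ x} := fun e => hpx1 (by rw [← e])
    by_cases h : p.1 = q.1
    · have e : ((p.1, q.2) : X × (Fin m → Fin (t + 1))) = q := by rw [h]
      rw [h, d1_self]
      exact WIn.refl hqx
    · by_cases h' : F p.1 q.1
      · obtain ⟨z, z1, z2, z3, z4⟩ := hF.diam _ _ h'
        have h3 : ∃ i, p.2 i = q.2 i := by
          by_contra h3
          push Not at h3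
          exact hpq ⟨h', h3⟩
        obtain ⟨i, hi⟩ := h3
        have m2 : ((z, q.2) : X × (Fin m → Fin (t + 1))) ∈
            {z : X × (Fin m → Fin (t + 1)) | z ≠ x} := fun e => by
          have := hpx.2 i
          rw [hi] at this
          exact this (by rw [← e])
        rw [d1_far hF.irr h']
        exact (WIn.adj m1 m2 (adj_first hs (Ne.symm z1) z3)).trans
          (WIn.adj m2 hqx (adj_first hs z2 (fun hh => z4 (hs _ _ hh))))
      · have e : d1 F p.1 q.1 = 1 := by simp [d1, h, h']
        rw [e]
        exact WIn.adj m1 hqx (adj_first hs h h')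
  refine (h1.trans h2).mono ?_
  have := near_dd hpq
  unfold dd at this
  omega

theorem wany (hF : IsFar F t) (p q : X × (Fin m → Fin (t + 1))) :
    Within (gr F m t hs) (dd F p q) p q := by
  have h1 : WIn (gr F m t hs) Set.univ (hammingDist p.2 q.2) p (p.1, q.2) :=
    (wcube hs p.1 _ p.2 q.2 rfl).sub (fun z _ => trivial)
  have h2 : WIn (gr F m t hs) Set.univ (d1 F p.1 q.1) (p.1, q.2) q := by
    by_cases h : p.1 = q.1
    · rw [h, d1_self]
      exact WIn.refl (Set.mem_univ _)
    · by_cases h' : F p.1 q.1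
      · obtain ⟨z, z1, z2, z3, z4⟩ := hF.diam _ _ h'
        rw [d1_far hF.irr h']
        exact (WIn.adj (Set.mem_univ _) (Set.mem_univ _) (adj_first hs (Ne.symm z1) z3)).trans
          (WIn.adj (Set.mem_univ _) (Set.mem_univ _)
            (adj_first hs z2 (fun hh => z4 (hs _ _ hh))))
      · have e : d1 F p.1 q.1 = 1 := by simp [d1, h, h']
        rw [e]
        exact WIn.adj (Set.mem_univ _) (Set.mem_univ _) (adj_first hs h h')
  have e : hammingDist p.2 q.2 + d1 F p.1 q.1 ≤ dd F p q := by unfold dd; omega
  exact ((h1.trans h2).mono e).within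

theorem within_iff (hF : IsFar F t) (p q : X × (Fin m → Fin (t + 1))) :
    Within (gr F m t hs) (m + 1) p q ↔ ¬ Far F p q := by
  constructor
  · rintro ⟨w, hw⟩ h
    have := dd_le_length hs w
    rw [far_dd hF.irr h] at this
    omega
  · intro h
    obtain ⟨w, hw⟩ := wany hs hF p q
    exact ⟨w, hw.trans (near_dd h)⟩

theorem cover_prod (hF : IsFar F t) (D : Finset (X × (Fin m → Fin (t + 1)))) (hD : D.card ≤ t) :
    ∃ w, ∀ u ∈ D, Far F u w := by
  classical
  obtain ⟨w, hw⟩ := hF.cover (D.image Prod.fst) (Finset.card_image_le.trans hD)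
  have : ∀ i : Fin m, ∃ a : Fin (t + 1), ∀ u ∈ D, u.2 i ≠ a := by
    intro i
    by_contra h
    push Not at h
    have h1 : (Finset.univ : Finset (Fin (t + 1))) ⊆ D.image (fun u => u.2 i) := by
      intro a _
      obtain ⟨u, hu, hu'⟩ := h a
      exact Finset.mem_image.2 ⟨u, hu, hu'⟩
    have h2 := Finset.card_le_card h1
    rw [Finset.card_univ, Fintype.card_fin] at h2
    have h3 := Finset.card_image_le (s := D) (f := fun u => u.2 i)
    omega
  choose a ha using this
  exact ⟨(w, a), fun u hu => ⟨hw _ (Finset.mem_image_of_mem _ hu), fun i => ha i u hu⟩⟩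

theorem uniq_prod (hF : IsFar F t) (x : X × (Fin m → Fin (t + 1))) :
    ∃ u : Fin t → X × (Fin m → Fin (t + 1)), (∀ j, Far F (u j) x) ∧
      ∀ w, (∀ j, Far F (u j) w) → w = x := by
  obtain ⟨u, hu, hu'⟩ := hF.uniq x.1
  refine ⟨fun j => (u j, fun i => (x.2 i).succAbove j), fun j => ⟨hu j, fun i => ?_⟩, ?_⟩
  · exact Fin.succAbove_ne _ _
  · intro w hw
    refine Prod.ext (hu' _ fun j => (hw j).1) (funext fun i => ?_)
    by_contra h
    obtain ⟨j, hj⟩ := Fin.exists_succAbove_eq h
    exact (hw j).2 i hj

theorem dom_eq [Fintype X] (hF : IsFar F t) : domNumber (gr F m t hs) (m + 1) = t + 1 := by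
  classical
  apply le_antisymm
  · obtain ⟨x, _⟩ := cover_prod (m := m) hF ∅ (by simp)
    obtain ⟨u, hu, hu'⟩ := uniq_prod hF x
    refine dom_le (insert x (Finset.univ.image u)) ?_ ?_
    · intro v
      by_cases hv : v = x
      · exact ⟨x, Finset.mem_insert_self _ _, hv ▸ ⟨Walk.nil, by simp⟩⟩
      · have : ∃ j, ¬ Far F (u j) v := by
          by_contra h
          push Not at h
          exact hv (hu' v h)
        obtain ⟨j, hj⟩ := this
        exact ⟨u j, Finset.mem_insert_of_mem (Finset.mem_image_of_mem _ (Finset.mem_univ _)),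
          (within_iff hs hF _ _).2 hj⟩
    · refine (Finset.card_insert_le _ _).trans ?_
      have := Finset.card_image_le (s := (Finset.univ : Finset (Fin t))) (f := u)
      rw [Finset.card_univ, Fintype.card_fin] at this
      omega
  · refine le_dom fun D hD => ?_
    by_contra h
    obtain ⟨w, hw⟩ := cover_prod hF D (by omega)
    obtain ⟨d, hd, hd'⟩ := hD w
    exact (within_iff hs hF _ _).1 hd' (hw d hd)

theorem crit [Fintype X] (hF : IsFar F t) : IsKCritical (gr F m t hs) (m + 1) := by
  classical
  intro x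
  rw [dom_eq hs hF]
  obtain ⟨u, hu, hu'⟩ := uniq_prod hF x
  have hux : ∀ j, u j ≠ x := fun j e => hF.irr x.1 (by
    have := (hu j).1
    rwa [e] at this)
  refine Nat.lt_succ_of_le (dom_le (Finset.univ.image fun j => (⟨u j, hux j⟩ : {z | z ≠ x})) ?_ ?_)
  · rintro ⟨v, hv⟩
    have : ∃ j, ¬ Far F (u j) v := by
      by_contra h
      push Not at h
      exact hv (hu' v h)
    obtain ⟨j, hj⟩ := this
    exact ⟨_, Finset.mem_image_of_mem _ (Finset.mem_univ j),
      (wmain hs hF x (u j) v (hu j) hv hj).induce (hux j) hv⟩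
  · refine Finset.card_image_le.trans ?_
    rw [Finset.card_univ, Fintype.card_fin]

theorem conn (hF : IsFar F t) : (gr F m t hs).Connected := by
  obtain ⟨x, _⟩ := cover_prod (m := m) hF ∅ (by simp)
  have : Nonempty (X × (Fin m → Fin (t + 1))) := ⟨x⟩
  refine ⟨fun p q => ?_⟩
  obtain ⟨w, _⟩ := wany hs hF p q
  exact ⟨w⟩

end

/-! ### Degrees -/

theorem minKDegree_spec {V : Type} [Fintype V] [Nonempty V] (G : SimpleGraph V) (k : ℕ) :
    ∃ v : V, (kNbhd G k v).ncard = minKDegree G k := by
  have : (Set.range fun v : V => (kNbhd G k v).ncard).Nonempty := Set.range_nonempty _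
  exact Nat.sInf_mem this

theorem minKDegree_le {V : Type} (G : SimpleGraph V) (k : ℕ) (v : V) :
    minKDegree G k ≤ (kNbhd G k v).ncard :=
  Nat.sInf_le ⟨v, rfl⟩

theorem far_count {V : Type} [Fintype V] (G : SimpleGraph V) (k : ℕ) (v : V) :
    (kNbhd G k v).ncard + 1 + {u | ¬ Within G k v u}.ncard = Fintype.card V := by
  classical
  have h1 : (kNbhd G k v).ncard + 1 = {u | Within G k v u}.ncard := by
    have : {u | Within G k v u} = insert v (kNbhd G k v) := by
      ext u
      simp only [Set.mem_ofPred_eq, Set.mem_insert_iff, kNbhd]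
      constructor
      · intro h
        by_cases e : u = v
        · exact Or.inl e
        · exact Or.inr ⟨e, h⟩
      · rintro (rfl | h)
        · exact ⟨Walk.nil, by simp⟩
        · exact h.2
    rw [this, Set.ncard_insert_of_notMem (fun h => h.1 rfl) (Set.toFinite _)]
  rw [h1]
  have := Set.ncard_add_ncard_compl {u | Within G k v u} (Set.toFinite _) (Set.toFinite _)
  rw [Nat.card_eq_fintype_card] at this
  exact this

/-- In the product graph all but few vertices are near. -/
theorem deg_prod {X : Type} [Fintype X] {F : X → X → Prop} {m t B : ℕ}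
    (hs : ∀ x y, F x y → F y x) (hF : IsFar F t) (hB : ∀ x, {w | F x w}.ncard ≤ B) :
    Fintype.card X * (t + 1) ^ m ≤ minKDegree (gr F m t hs) (m + 1) + 1 + B * t ^ m := by
  classical
  obtain ⟨x0, _⟩ := cover_prod (m := m) hF ∅ (by simp)
  have : Nonempty (X × (Fin m → Fin (t + 1))) := ⟨x0⟩
  obtain ⟨p, hp⟩ := minKDegree_spec (gr F m t hs) (m + 1)
  have h1 := far_count (gr F m t hs) (m + 1) p
  rw [hp] at h1
  have hcard : Fintype.card (X × (Fin m → Fin (t + 1))) = Fintype.card X * (t + 1) ^ m := by
    simp [Fintype.card_prod]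
  rw [hcard] at h1
  have h2 : {u | ¬ Within (gr F m t hs) (m + 1) p u} =
      {w | F p.1 w} ×ˢ (Set.univ.pi fun i => {a | p.2 i ≠ a}) := by
    ext u
    simp only [Set.mem_ofPred_eq, within_iff hs hF, not_not, Far, Set.mem_prod, Set.mem_pi,
      Set.mem_univ, true_implies]
  have h3 : {u | ¬ Within (gr F m t hs) (m + 1) p u}.ncard ≤ B * t ^ m := by
    rw [h2, Set.ncard_prod]
    refine Nat.mul_le_mul (hB _) ?_
    have h4 : (Set.univ.pi fun i => {a | p.2 i ≠ a}) =
        ((Fintype.piFinset fun i => Finset.univ.filter fun a => p.2 i ≠ a : Finset _) : Set _) := by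
      ext u
      simp
    rw [h4, Set.ncard_coe_finset, Fintype.card_piFinset]
    have h5 : ∀ i : Fin m, (Finset.univ.filter fun a => p.2 i ≠ a).card = t := by
      intro i
      rw [Finset.filter_ne, Finset.card_erase_of_mem (Finset.mem_univ _), Finset.card_univ,
        Fintype.card_fin]
      rfl
    rw [Finset.prod_congr rfl fun i _ => h5 i]
    simp
  omega

/-- The lower bound: a graph of order `n` with `γ_k = t + 1` satisfies
`n ^ t ≤ n * (n - 1 - δ_k) ^ t`. -/
theorem lower {V : Type} [Fintype V] (G : SimpleGraph V) (k t : ℕ) (h : domNumber G k = t + 1) :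
    Fintype.card V ^ t ≤ Fintype.card V * (Fintype.card V - 1 - minKDegree G k) ^ t := by
  classical
  have h1 : ∀ u : Fin t → V, ∃ w, ∀ j, ¬ Within G k w (u j) := by
    intro u
    by_contra hh
    push Not at hh
    have : domNumber G k ≤ t := by
      refine dom_le (Finset.univ.image u) (fun v => ?_) ?_
      · obtain ⟨j, hj⟩ := hh v
        exact ⟨u j, Finset.mem_image_of_mem _ (Finset.mem_univ _), hj.symm⟩
      · refine Finset.card_image_le.trans ?_
        rw [Finset.card_univ, Fintype.card_fin]
    omega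
  have h2 : (Finset.univ : Finset (Fin t → V)) ⊆ Finset.univ.biUnion fun w : V =>
      Fintype.piFinset fun _ : Fin t => Finset.univ.filter fun v => ¬ Within G k w v := by
    intro u _
    obtain ⟨w, hw⟩ := h1 u
    rw [Finset.mem_biUnion]
    refine ⟨w, Finset.mem_univ _, ?_⟩
    rw [Fintype.mem_piFinset]
    intro j
    simp [hw j]
  have h3 := (Finset.card_le_card h2).trans Finset.card_biUnion_le
  rw [Finset.card_univ, Fintype.card_pi] at h3
  simp only [Finset.prod_const, Finset.card_univ, Fintype.card_fin] at h3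
  refine h3.trans ?_
  refine (Finset.sum_le_card_nsmul _ _ ((Fintype.card V - 1 - minKDegree G k) ^ t) ?_).trans ?_
  · intro w _
    rw [Fintype.card_piFinset]
    simp only [Finset.prod_const, Finset.card_univ, Fintype.card_fin]
    refine Nat.pow_le_pow_left ?_ t
    have a := far_count G k w
    have b := minKDegree_le G k w
    have c : (Finset.univ.filter fun v => ¬ Within G k w v).card = {u | ¬ Within G k w u}.ncard := by
      rw [Set.ncard_eq_toFinset_card']
      congr 1
      ext u
      simp
    omega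
  · rw [Finset.card_univ, smul_eq_mul]

end Pool.Agent.Y376.KD
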