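import Pool.Agent.Y376.KD.Polar

/-!
# The order of distance domination critical graphs
-/

set_option autoImplicit false

namespace Pool.Agent.Y376.KD

open scoped LinearAlgebra.Projectivization
open Projectivization Module

section
variable {K : Type} [Field K] [Finite K] {t : ℕ}

instance : Finite (PX K t) := by
  unfold PX
  infer_instance

theorem geom_le {q : ℕ} (hq : 2 ≤ q) : ∀ s : ℕ, ∑ i ∈ Finset.range (s + 1), q ^ i ≤ 2 * q ^ s := by
  intro s
  induction s with
  | zero => simp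
  | succ s ih =>
    rw [Finset.sum_range_succ]
    have h : 2 * q ^ s ≤ q ^ (s + 1) := by
      rw [pow_succ, mul_comm (q ^ s) q]
      exact Nat.mul_le_mul_right _ hq
    omega

theorem card_PX_ge : Nat.card K ^ t ≤ Nat.card (PX K t) := by
  have h1 : Nat.card (ℙ K (Fin (t + 1) → K)) = ∑ i ∈ Finset.range (t + 1), Nat.card K ^ i :=
    card_of_finrank K _ (by simp)
  have h2 : Nat.card (ℙ K (Fin (t + 1) → K)) ≤ Nat.card (PX K t) := by
    refine Nat.card_le_card_of_injective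
      (fun p => (⟨(p, false), by simp⟩ : PX K t)) fun p q h => ?_
    exact congrArg (fun x => x.1.1) h
  refine le_trans ?_ h2
  rw [h1]
  exact Finset.single_le_sum (f := fun i => Nat.card K ^ i) (fun _ _ => Nat.zero_le _)
    (Finset.mem_range.2 (Nat.lt_succ_self t))

theorem far_le (ht : 1 ≤ t) (x : PX K t) : {w | PF x w}.ncard ≤ 4 * Nat.card K ^ (t - 1) := by
  obtain ⟨⟨p, b⟩, hp⟩ := x
  induction p with | h a ha =>
  have hfr := finrank_ker ha
  have h1 : Nat.card (ℙ K (LinearMap.ker (phi a))) = ∑ i ∈ Finset.range t, Nat.card K ^ i :=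
    card_of_finrank K _ hfr
  obtain ⟨s, rfl⟩ : ∃ s, t = s + 1 := ⟨t - 1, by omega⟩
  have hq : 2 ≤ Nat.card K := Finite.one_lt_card
  have h2 := geom_le hq s
  rw [← h1] at h2
  rw [Nat.add_sub_cancel]
  let g : ℙ K (LinearMap.ker (phi a)) × Bool → ℙ K (Fin (s + 1 + 1) → K) × Bool :=
    fun z => (Projectivization.map (LinearMap.ker (phi a)).subtype Subtype.val_injective z.1, z.2)
  have hinj : Function.Injective (fun w : PX K (s + 1) => w.1) := fun _ _ h => Subtype.ext h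
  generalize hx : (⟨(mk K a ha, b), hp⟩ : PX K (s + 1)) = x
  have hx1 : x.1.1 = mk K a ha := by rw [← hx]
  have h3 : (fun w : PX K (s + 1) => w.1) '' {w : PX K (s + 1) | PF x w} ⊆ Set.range g := by
    rintro _ ⟨⟨⟨q, c⟩, hq⟩, hw, rfl⟩
    induction q with | h v hv =>
    have hva : v ⬝ᵥ a = 0 := by
      have : x.1.1.orthogonal (mk K v hv) := hw.2
      rw [hx1] at this
      have : a ⬝ᵥ v = 0 := this
      rwa [dotProduct_comm]
    refine ⟨(mk K (⟨v, hva⟩ : LinearMap.ker (phi a)) (fun e => hv (congrArg Subtype.val e)), c),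
      ?_⟩
    rfl
  have h4 : {w : PX K (s + 1) | PF x w}.ncard ≤ (Set.range g).ncard := by
    rw [← Set.ncard_image_of_injective {w : PX K (s + 1) | PF x w} hinj]
    exact Set.ncard_le_ncard h3 (Set.toFinite _)
  have h5 : (Set.range g).ncard ≤ Nat.card (ℙ K (LinearMap.ker (phi a)) × Bool) := by
    rw [← Set.image_univ]
    refine (Set.ncard_image_le (Set.toFinite _)).trans ?_
    rw [Set.ncard_univ]
  rw [Nat.card_prod] at h5
  have h6 : Nat.card Bool = 2 := by simp
  rw [h6] at h5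
  omega

end

/-- The construction. -/
theorem constr (m t p : ℕ) (hp : p.Prime) (ht : 1 ≤ t) :
    ∃ (V : Type) (_ : Fintype V) (G : SimpleGraph V), G.Connected ∧ IsKCritical G (m + 1) ∧
      domNumber G (m + 1) = t + 1 ∧ p ^ t ≤ Fintype.card V ∧
      Fintype.card V ≤ minKDegree G (m + 1) + 1 + 4 * p ^ (t - 1) * t ^ m := by
  have : Fact p.Prime := ⟨hp⟩
  have hK : Nat.card (ZMod p) = p := Nat.card_zmod p
  let _ : Fintype (PX (ZMod p) t) := Fintype.ofFinite _
  have hcard : Fintype.card (PX (ZMod p) t × (Fin m → Fin (t + 1))) =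
      Fintype.card (PX (ZMod p) t) * (t + 1) ^ m := by
    simp [Fintype.card_prod]
  have h0 := card_PX_ge (K := ZMod p) (t := t)
  rw [hK, Nat.card_eq_fintype_card] at h0
  refine ⟨PX (ZMod p) t × (Fin m → Fin (t + 1)), inferInstance, gr PF m t PF_symm,
    conn PF_symm PF_far, crit PF_symm PF_far, dom_eq PF_symm PF_far, ?_, ?_⟩
  · rw [hcard]
    calc p ^ t ≤ Fintype.card (PX (ZMod p) t) := h0
      _ = Fintype.card (PX (ZMod p) t) * 1 := (mul_one _).symm
      _ ≤ _ := Nat.mul_le_mul_left _ (Nat.one_le_pow _ _ (Nat.succ_pos _))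
  · rw [hcard]
    refine deg_prod PF_symm PF_far fun x => ?_
    have := far_le (K := ZMod p) ht x
    rwa [hK] at this

/-- Upper bound: all but few vertices are at distance at most `k` from each vertex. -/
theorem upper (k l : ℕ) (hk : 1 ≤ k) (hl : 2 ≤ l) (N : ℕ) :
    ∃ (V : Type) (_ : Fintype V) (G : SimpleGraph V), G.Connected ∧ IsKCritical G k ∧
      domNumber G k = l ∧ N ≤ Fintype.card V ∧
      (Fintype.card V - 1 - minKDegree G k) ^ (l - 1) ≤
        (4 * (l - 1) ^ (k - 1)) ^ (l - 1) * Fintype.card V ^ (l - 2) := by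
  obtain ⟨m, rfl⟩ : ∃ m, k = m + 1 := ⟨k - 1, by omega⟩
  obtain ⟨s, rfl⟩ : ∃ s, l = s + 2 := ⟨l - 2, by omega⟩
  obtain ⟨p, hpN, hp⟩ := Nat.exists_infinite_primes N
  obtain ⟨V, _, G, h1, h2, h3, h4, h5⟩ := constr m (s + 1) p hp (by omega)
  refine ⟨V, inferInstance, G, h1, h2, h3, ?_, ?_⟩
  · refine (hpN.trans ?_).trans h4
    exact Nat.le_self_pow (by omega) p
  · have e1 : s + 2 - 1 = s + 1 := by omega
    have e2 : s + 2 - 2 = s := by omega
    have e3 : m + 1 - 1 = m := by omega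
    rw [Nat.add_sub_cancel] at h5
    rw [e1, e2, e3]
    calc (Fintype.card V - 1 - minKDegree G (m + 1)) ^ (s + 1)
        ≤ (4 * p ^ s * (s + 1) ^ m) ^ (s + 1) := Nat.pow_le_pow_left (by omega) _
      _ = (4 * (s + 1) ^ m) ^ (s + 1) * (p ^ (s + 1)) ^ s := by ring
      _ ≤ _ := Nat.mul_le_mul_left _ (Nat.pow_le_pow_left h4 _)

/-- Lower bound. -/
theorem lower' (k l : ℕ) (hl : 2 ≤ l) (V : Type) [Fintype V] (G : SimpleGraph V)
    (h : domNumber G k = l) :
    Fintype.card V ^ (l - 2) ≤ (Fintype.card V - 1 - minKDegree G k) ^ (l - 1) := by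
  obtain ⟨s, rfl⟩ : ∃ s, l = s + 2 := ⟨l - 2, by omega⟩
  have h1 := lower G k (s + 1) h
  have e1 : s + 2 - 1 = s + 1 := by omega
  have e2 : s + 2 - 2 = s := by omega
  rw [e1, e2]
  have hpos : 0 < Fintype.card V := by
    rcases Nat.eq_zero_or_pos (Fintype.card V) with h0 | h0
    · exfalso
      have he : IsEmpty V := Fintype.card_eq_zero_iff.1 h0
      have : domNumber G k ≤ 0 := dom_le ∅ (fun v => (he.false v).elim) (by simp)
      omega
    · exact h0
  rw [pow_succ, mul_comm] at h1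
  exact Nat.le_of_mul_le_mul_left h1 hpos

/-- The order can be close to the minimum `k`-degree. -/
theorem ratio (k l : ℕ) (hk : 1 ≤ k) (hl : 2 ≤ l) (ε : ℝ) (hε : 0 < ε) (N : ℕ) :
    ∃ (V : Type) (_ : Fintype V) (G : SimpleGraph V), G.Connected ∧ IsKCritical G k ∧
      domNumber G k = l ∧ N ≤ Fintype.card V ∧
      (Fintype.card V : ℝ) ≤ (1 + ε) * (minKDegree G k + 1) := by
  obtain ⟨m, rfl⟩ : ∃ m, k = m + 1 := ⟨k - 1, by omega⟩
  obtain ⟨s, rfl⟩ : ∃ s, l = s + 2 := ⟨l - 2, by omega⟩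
  obtain ⟨M, hM⟩ := exists_nat_ge (4 * (s + 1 : ℝ) ^ m * (1 + ε) / ε)
  obtain ⟨p, hpN, hp⟩ := Nat.exists_infinite_primes (N + M)
  obtain ⟨V, _, G, h1, h2, h3, h4, h5⟩ := constr m (s + 1) p hp (by omega)
  refine ⟨V, inferInstance, G, h1, h2, h3, ?_, ?_⟩
  · refine (le_trans (by omega : N ≤ p) ?_).trans h4
    exact Nat.le_self_pow (by omega) p
  · rw [Nat.add_sub_cancel] at h5
    have hp0 : (0 : ℝ) < p := by exact_mod_cast hp.pos
    have h6 : (Fintype.card V : ℝ) ≤ minKDegree G (m + 1) + 1 + 4 * (p : ℝ) ^ s * (s + 1) ^ m := by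
      exact_mod_cast h5
    have h7 : (p : ℝ) ^ (s + 1) ≤ Fintype.card V := by exact_mod_cast h4
    have h8 : 4 * (s + 1 : ℝ) ^ m * (1 + ε) ≤ ε * p := by
      rw [div_le_iff₀ hε] at hM
      have : (M : ℝ) ≤ p := by exact_mod_cast (by omega : M ≤ p)
      nlinarith
    have h9 : (4 * (p : ℝ) ^ s * (s + 1) ^ m) * (1 + ε) ≤ ε * Fintype.card V := by
      calc (4 * (p : ℝ) ^ s * (s + 1) ^ m) * (1 + ε) = (p : ℝ) ^ s * (4 * (s + 1 : ℝ) ^ m * (1 + ε)) := by
            ring
        _ ≤ (p : ℝ) ^ s * (ε * p) := mul_le_mul_of_nonneg_left h8 (by positivity)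
        _ = ε * (p : ℝ) ^ (s + 1) := by ring
        _ ≤ _ := mul_le_mul_of_nonneg_left h7 hε.le
    nlinarith

/-- The answer to the question, for all pairs. -/
theorem answer (k l : ℕ) (hk : 2 ≤ k) (hl : 3 ≤ l) (N : ℕ) :
    ∃ (V : Type) (_ : Fintype V) (G : SimpleGraph V), G.Connected ∧ IsKCritical G k ∧
      domNumber G k = l ∧ N ≤ Fintype.card V ∧
      Fintype.card V ≤ (minKDegree G k + 1) * (l - 1) := by
  obtain ⟨V, _, G, h1, h2, h3, h4, h5⟩ := ratio k l (by omega) (by omega) 1 one_pos N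
  refine ⟨V, inferInstance, G, h1, h2, h3, h4, ?_⟩
  have h6 : Fintype.card V ≤ (minKDegree G k + 1) * 2 := by
    have : (Fintype.card V : ℝ) ≤ ((minKDegree G k + 1) * 2 : ℕ) := by
      push_cast
      linarith
    exact_mod_cast this
  exact h6.trans (Nat.mul_le_mul_left _ (by omega))

end Pool.Agent.Y376.KD
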