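import Pool.Agent.Y376.KD.Core

/-!
# The far relation of orthogonality on a projective space
-/

set_option autoImplicit false

namespace Pool.Agent.Y376.KD

open scoped LinearAlgebra.Projectivization
open Projectivization Module

section
variable (K : Type) [Field K] (t : ℕ)

/-- The points of the projective space, and a second copy of the self-orthogonal ones. -/
def PX : Type := {p : (ℙ K (Fin (t + 1) → K)) × Bool // p.2 = true → p.1.orthogonal p.1}

variable {K t}

/-- Two different elements are far if their points are orthogonal. -/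
def PF (x y : PX K t) : Prop := x ≠ y ∧ x.1.1.orthogonal y.1.1

theorem PF_symm (x y : PX K t) (h : PF x y) : PF y x :=
  ⟨Ne.symm h.1, orthogonal_comm.1 h.2⟩

theorem PF_irr (x : PX K t) : ¬ PF x x := fun h => h.1 rfl

/-- The functional `v ↦ v ⬝ᵥ a`. -/
def phi (a : Fin (t + 1) → K) : (Fin (t + 1) → K) →ₗ[K] K where
  toFun v := v ⬝ᵥ a
  map_add' x y := add_dotProduct x y a
  map_smul' c x := smul_dotProduct c x a

theorem exists_dot {a : Fin (t + 1) → K} (ha : a ≠ 0) : ∃ c : Fin (t + 1) → K, c ⬝ᵥ a = 1 := by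
  obtain ⟨i, hi⟩ := Function.ne_iff.1 ha
  refine ⟨Pi.single i (a i)⁻¹, ?_⟩
  rw [single_dotProduct]
  exact inv_mul_cancel₀ hi

theorem exists_dot2 {a b : Fin (t + 1) → K} (ha : a ≠ 0) (hb : b ≠ 0) :
    ∃ c : Fin (t + 1) → K, c ⬝ᵥ a ≠ 0 ∧ c ⬝ᵥ b ≠ 0 := by
  obtain ⟨c, hc⟩ := exists_dot ha
  obtain ⟨d, hd⟩ := exists_dot hb
  by_cases h1 : c ⬝ᵥ b = 0
  · by_cases h2 : d ⬝ᵥ a = 0
    · refine ⟨c + d, ?_, ?_⟩
      · rw [add_dotProduct, hc, h2]; simp
      · rw [add_dotProduct, hd, h1]; simp
    · exact ⟨d, h2, by rw [hd]; exact one_ne_zero⟩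
  · exact ⟨c, by rw [hc]; exact one_ne_zero, h1⟩

theorem finrank_ker {a : Fin (t + 1) → K} (ha : a ≠ 0) :
    finrank K (LinearMap.ker (phi a)) = t := by
  obtain ⟨c, hc⟩ := exists_dot ha
  have h1 : LinearMap.range (phi a) = ⊤ := by
    rw [LinearMap.range_eq_top]
    intro x
    refine ⟨x • c, ?_⟩
    rw [map_smul]
    change x • (c ⬝ᵥ a) = x
    rw [hc]; simp
  have h2 := LinearMap.finrank_range_add_finrank_ker (phi a)
  rw [h1, finrank_top, finrank_self, finrank_fin_fun] at h2
  omega

/-- A vector which is orthogonal to the orthogonal complement of `a` is a multiple of `a`. -/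
theorem double_orth {a v : Fin (t + 1) → K} (ha : a ≠ 0)
    (h : ∀ y : Fin (t + 1) → K, y ⬝ᵥ a = 0 → y ⬝ᵥ v = 0) : ∃ c : K, c • a = v := by
  obtain ⟨c, hc⟩ := exists_dot ha
  refine ⟨c ⬝ᵥ v, funext fun i => ?_⟩
  have h1 := h (Pi.single i 1 - (a i) • c) (by
    rw [sub_dotProduct, smul_dotProduct, hc, single_dotProduct]
    simp)
  rw [sub_dotProduct, smul_dotProduct, single_dotProduct, one_mul, sub_eq_zero] at h1
  rw [h1]
  simp [mul_comm]

theorem frame {a : Fin (t + 1) → K} (ha : a ≠ 0) :
    ∃ u : Fin t → (Fin (t + 1) → K), (∀ j, u j ≠ 0) ∧ (∀ j, u j ⬝ᵥ a = 0) ∧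
      (∀ v, (∀ j, u j ⬝ᵥ v = 0) → ∃ c : K, c • a = v) ∧
      (a ⬝ᵥ a = 0 → ∃ j0, u j0 = a ∧ ∀ j, j ≠ j0 → ∀ c : K, c • u j ≠ a) := by
  have b : Basis (Fin t) K (LinearMap.ker (phi a)) :=
    (finBasis K (LinearMap.ker (phi a))).reindex (finCongr (finrank_ker ha))
  have hb0 : ∀ j, ((b j : LinearMap.ker (phi a)) : Fin (t + 1) → K) ≠ 0 := fun j e =>
    b.ne_zero j (Subtype.ext e)
  have hba : ∀ j, ((b j : LinearMap.ker (phi a)) : Fin (t + 1) → K) ⬝ᵥ a = 0 := fun j =>
    (b j).2
  have hall : ∀ v : Fin (t + 1) → K, (∀ j, ((b j : LinearMap.ker (phi a)) :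
      Fin (t + 1) → K) ⬝ᵥ v = 0) → ∃ c : K, c • a = v := by
    intro v hv
    refine double_orth ha fun y hy => ?_
    have h1 : (phi v).comp (LinearMap.ker (phi a)).subtype = 0 := b.ext fun j => hv j
    exact LinearMap.congr_fun h1 ⟨y, hy⟩
  by_cases h0 : a ⬝ᵥ a = 0
  · have haW : a ∈ LinearMap.ker (phi a) := h0
    have : ∃ j0, b.repr ⟨a, haW⟩ j0 ≠ 0 := by
      by_contra h
      push Not at h
      have h1 : b.repr ⟨a, haW⟩ = 0 := Finsupp.ext h
      have h2 := (LinearEquiv.map_eq_zero_iff b.repr).1 h1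
      exact ha (congrArg Subtype.val h2)
    obtain ⟨j0, hj0⟩ := this
    refine ⟨Function.update (fun j => ((b j : LinearMap.ker (phi a)) : Fin (t + 1) → K)) j0 a,
      ?_, ?_, ?_, ?_⟩
    · intro j
      by_cases e : j = j0
      · subst e; simpa using ha
      · rw [Function.update_of_ne e]; exact hb0 j
    · intro j
      by_cases e : j = j0
      · subst e; simpa using h0
      · rw [Function.update_of_ne e]; exact hba j
    · intro v hv
      apply hall
      have h1 : ∀ j, j ≠ j0 → ((b j : LinearMap.ker (phi a)) : Fin (t + 1) → K) ⬝ᵥ v = 0 := by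
        intro j e
        have := hv j
        rwa [Function.update_of_ne e] at this
      have h2 : a ⬝ᵥ v = 0 := by
        have := hv j0
        rwa [Function.update_self] at this
      intro j
      by_cases e : j = j0
      · subst e
        have h3 := b.sum_repr ⟨a, haW⟩
        have h4 : ((phi v).comp (LinearMap.ker (phi a)).subtype) ⟨a, haW⟩ = 0 := h2
        rw [← h3, map_sum, Finset.sum_eq_single j] at h4
        · rw [map_smul, smul_eq_zero] at h4
          rcases h4 with h4 | h4
          · exact absurd h4 hj0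
          · exact h4
        · intro i _ hi
          rw [map_smul]
          have := h1 i hi
          change _ • (((b i : LinearMap.ker (phi a)) : Fin (t + 1) → K) ⬝ᵥ v) = 0
          rw [this, smul_zero]
        · intro h; exact absurd (Finset.mem_univ _) h
      · exact h1 j e
    · intro _
      refine ⟨j0, Function.update_self _ _ _, fun j hj c hc => hj0 ?_⟩
      rw [Function.update_of_ne hj] at hc
      have h1 : (⟨a, haW⟩ : LinearMap.ker (phi a)) = c • b j := Subtype.ext hc.symm
      rw [h1, map_smul, b.repr_self, Finsupp.smul_apply, Finsupp.single_apply, if_neg hj, smul_zero]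
  · exact ⟨_, hb0, hba, hall, fun h => absurd h h0⟩

theorem PF_diam (v w : PX K t) (h : PF v w) :
    ∃ z, z ≠ v ∧ z ≠ w ∧ ¬ PF v z ∧ ¬ PF w z := by
  obtain ⟨⟨p, b⟩, hp⟩ := v
  obtain ⟨⟨q, c⟩, hq⟩ := w
  induction p with | h p hp0 =>
  induction q with | h q hq0 =>
  obtain ⟨d, hd1, hd2⟩ := exists_dot2 hp0 hq0
  have hd0 : d ≠ 0 := by
    rintro rfl
    exact hd1 (zero_dotProduct _)
  have hor : (mk K p hp0).orthogonal (mk K q hq0) := h.2
  have n1 : ¬ (mk K p hp0).orthogonal (mk K d hd0) := by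
    rw [orthogonal_mk, dotProduct_comm]; exact hd1
  have n2 : ¬ (mk K q hq0).orthogonal (mk K d hd0) := by
    rw [orthogonal_mk, dotProduct_comm]; exact hd2
  refine ⟨⟨(mk K d hd0, false), by simp⟩, ?_, ?_, fun h => n1 h.2, fun h => n2 h.2⟩
  · intro e
    have e1 : mk K d hd0 = mk K p hp0 := congrArg (fun x => x.1.1) e
    exact n2 (by rw [e1]; exact orthogonal_comm.1 hor)
  · intro e
    have e1 : mk K d hd0 = mk K q hq0 := congrArg (fun x => x.1.1) e
    exact n1 (by rw [e1]; exact hor)

theorem PF_uniq (x : PX K t) :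
    ∃ u : Fin t → PX K t, (∀ j, PF (u j) x) ∧ ∀ w, (∀ j, PF (u j) w) → w = x := by
  obtain ⟨⟨p, b⟩, hp⟩ := x
  induction p with | h a ha =>
  obtain ⟨u, u1, u2, u3, u4⟩ := frame ha
  by_cases h0 : a ⬝ᵥ a = 0
  · obtain ⟨j0, hj0, hj⟩ := u4 h0
    have hne : ∀ j, j ≠ j0 → mk K (u j) (u1 j) ≠ mk K a ha := by
      intro j hjj e
      obtain ⟨c, hc⟩ := (mk_eq_mk_iff' K a (u j) ha (u1 j)).1 e.symm
      exact hj j hjj c hc
    refine ⟨fun j => if j = j0 then ⟨(mk K a ha, !b), fun _ => h0⟩ else
      ⟨(mk K (u j) (u1 j), false), by simp⟩, ?_, ?_⟩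
    · intro j
      by_cases e : j = j0
      · simp only [e, if_true]
        refine ⟨fun h => ?_, h0⟩
        have : (!b) = b := congrArg (fun x => x.1.2) h
        cases b <;> simp at this
      · simp only [e, if_false]
        refine ⟨fun h => ?_, u2 j⟩
        exact hne j e (congrArg (fun x => x.1.1) h)
    · rintro ⟨⟨q, c⟩, hq⟩ hw
      induction q with | h v hv =>
      have h1 : ∀ j, u j ⬝ᵥ v = 0 := by
        intro j
        have := hw j
        beta_reduce at this
        by_cases e : j = j0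
        · rw [if_pos e] at this
          rw [e, hj0]
          exact this.2
        · rw [if_neg e] at this
          exact this.2
      obtain ⟨c', hc'⟩ := u3 v h1
      have h2 : mk K v hv = mk K a ha := (mk_eq_mk_iff' K v a hv ha).2 ⟨c', hc'⟩
      have h3 := hw j0
      beta_reduce at h3
      rw [if_pos rfl] at h3
      have h4 : c = b := by
        by_contra hcb
        have : c = !b := by cases b <;> cases c <;> simp_all
        apply h3.1
        apply Subtype.ext
        simp only [h2, this]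
      apply Subtype.ext
      simp only [h2, h4]
  · have hb : b = false := by
      cases b
      · rfl
      · exact absurd (hp rfl) h0
    subst hb
    refine ⟨fun j => ⟨(mk K (u j) (u1 j), false), by simp⟩, ?_, ?_⟩
    · intro j
      refine ⟨fun h => ?_, u2 j⟩
      have e : mk K (u j) (u1 j) = mk K a ha := congrArg (fun x => x.1.1) h
      have : (mk K (u j) (u1 j)).orthogonal (mk K a ha) := u2 j
      rw [e] at this
      exact h0 this
    · rintro ⟨⟨q, c⟩, hq⟩ hw
      induction q with | h v hv =>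
      obtain ⟨c', hc'⟩ := u3 v fun j => (hw j).2
      have h2 : mk K v hv = mk K a ha := (mk_eq_mk_iff' K v a hv ha).2 ⟨c', hc'⟩
      have h4 : c = false := by
        cases c
        · rfl
        · have := hq rfl
          rw [h2] at this
          exact absurd this h0
      apply Subtype.ext
      simp only [h2, h4]

theorem PF_cover (D : Finset (PX K t)) (hD : D.card ≤ t) : ∃ w, ∀ u ∈ D, PF u w := by
  classical
  let P : PX K t → Prop := fun x => x.1.2 = true ∧ ∃ y ∈ D, y.1.1 = x.1.1 ∧ y.1.2 = false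
  have hcard := Finset.card_filter_add_card_filter_not (s := D) P
  let D0 := D.filter (fun x => ¬ P x)
  let D1 := D.filter P
  let L : (Fin (t + 1) → K) →ₗ[K] (D0 → K) :=
    LinearMap.pi fun x => phi (x.1.1.1.rep)
  have hk := LinearMap.finrank_range_add_finrank_ker L
  have hr : finrank K (LinearMap.range L) ≤ D0.card := by
    have := Submodule.finrank_le (LinearMap.range L)
    rwa [finrank_fintype_fun_eq_card, Fintype.card_coe] at this
  rw [finrank_fin_fun] at hk
  have hk2 : D1.card < finrank K (LinearMap.ker L) := by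
    have : D1.card + D0.card = D.card := hcard
    omega
  let b := finBasis K (LinearMap.ker L)
  have hb0 : ∀ j, ((b j : LinearMap.ker L) : Fin (t + 1) → K) ≠ 0 := fun j e =>
    b.ne_zero j (Subtype.ext e)
  let f : Fin (finrank K (LinearMap.ker L)) → ℙ K (Fin (t + 1) → K) := fun j => mk K _ (hb0 j)
  have hf : Function.Injective f := by
    intro i j e
    obtain ⟨c, hc⟩ := (mk_eq_mk_iff' K _ _ (hb0 i) (hb0 j)).1 e
    by_contra hij
    have h1 : b i = c • b j := Subtype.ext hc.symm
    have h2 := congrArg (fun x => b.repr x i) h1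
    simp only [map_smul, b.repr_self, Finsupp.smul_apply, Finsupp.single_apply, if_true,
      if_neg (Ne.symm hij), smul_zero] at h2
    exact one_ne_zero h2
  have h1 : (D1.image fun x => x.1.1).card < (Finset.univ.image f).card := by
    rw [Finset.card_image_of_injective _ hf, Finset.card_univ, Fintype.card_fin]
    exact Finset.card_image_le.trans_lt hk2
  obtain ⟨z, hz, hz'⟩ := Finset.exists_mem_notMem_of_card_lt_card h1
  rw [Finset.mem_image] at hz
  obtain ⟨j, _, rfl⟩ := hz
  -- `f j` is orthogonal to all points of `D`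
  have horth0 : ∀ x ∈ D0, (x.1.1).orthogonal (f j) := by
    intro x hx
    have := (b j).2
    rw [LinearMap.mem_ker] at this
    have h2 := congrFun this ⟨x, hx⟩
    have h3 : ((b j : LinearMap.ker L) : Fin (t + 1) → K) ⬝ᵥ (x.1.1.rep) = 0 := h2
    have h4 : (mk K _ (x.1.1.rep_nonzero)).orthogonal (f j) := by
      change _ ⬝ᵥ _ = (0 : K)
      rw [dotProduct_comm]
      exact h3
    rwa [mk_rep] at h4
  have horth : ∀ x ∈ D, (x.1.1).orthogonal (f j) := by
    intro x hx
    by_cases hP : P x
    · obtain ⟨_, y, hy, hy1, hy2⟩ := hP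
      have : y ∈ D0 := Finset.mem_filter.2 ⟨hy, fun h => by
        have := h.1
        rw [hy2] at this
        exact Bool.false_ne_true this⟩
      rw [← hy1]
      exact horth0 y this
    · exact horth0 x (Finset.mem_filter.2 ⟨hx, hP⟩)
  have hex : ∃ w : PX K t, w ∉ D ∧ w.1.1 = f j := by
    by_cases h2 : (⟨(f j, false), by simp⟩ : PX K t) ∈ D
    · have h3 : (f j).orthogonal (f j) := horth _ h2
      refine ⟨⟨(f j, true), fun _ => h3⟩, fun h4 => hz' ?_, rfl⟩
      refine Finset.mem_image.2 ⟨_, Finset.mem_filter.2 ⟨h4, rfl, _, h2, rfl, rfl⟩, rfl⟩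
    · exact ⟨_, h2, rfl⟩
  obtain ⟨w, hw, hw'⟩ := hex
  refine ⟨w, fun u hu => ⟨fun e => hw (e ▸ hu), ?_⟩⟩
  rw [hw']
  exact horth u hu

theorem PF_far : IsFar (PF : PX K t → PX K t → Prop) t :=
  ⟨PF_symm, PF_irr, PF_cover, PF_uniq, PF_diam⟩

end

end Pool.Agent.Y376.KD
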